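import Pool.Agent.Helper98.QR.StmtsC

/-!
# Rows C11, C12, C13: rules for `TL`
-/

namespace QR

noncomputable section

open Filter Topology PowerSeries

namespace H32

theorem tl_nonneg {a : PowerSeries ℝ} (h : ∀ n, 0 ≤ coeff n a) (M : ℕ) : 0 ≤ tl a M :=
  tsum_nonneg fun _ => h _

theorem tot_nonneg {a : PowerSeries ℝ} (h : ∀ n, 0 ≤ coeff n a) : 0 ≤ tot a :=
  tsum_nonneg fun _ => h _

theorem summable_shift {a : PowerSeries ℝ} (h : Summable (fun n => coeff n a)) (M : ℕ) :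
    Summable (fun n => coeff (n + M) a) :=
  (summable_nat_add_iff (f := fun n => coeff n a) M).2 h

theorem TL_nonneg {a : PowerSeries ℝ} {c : ℝ} (h : TL a c) : 0 ≤ c := by
  by_contra hc
  push Not at hc
  obtain ⟨M, hM, hM1⟩ := ((h.2 (-c / 2) (by linarith)).and (eventually_ge_atTop 1)).exists
  have h1 : 0 ≤ tl a M := tl_nonneg h.1.1 M
  have h2 : 0 < (M : ℝ) ^ (-(3 / 2) : ℝ) := Real.rpow_pos_of_pos (by exact_mod_cast hM1) _
  nlinarith

/-- dilation lemma -/
theorem tl_dil {a : PowerSeries ℝ} {c : ℝ} (h : TL a c) {ε : ℝ} (hε : 0 < ε) :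
    ∃ η : ℝ, 0 < η ∧ η < 1 ∧ ∀ η', η ≤ η' → ∀ᶠ M : ℕ in atTop, ∀ m : ℕ, η' * M ≤ m →
      tl a m ≤ (c + ε) * (M : ℝ) ^ (-(3 / 2) : ℝ) := by
  have hc := TL_nonneg h
  -- continuity
  have hcont : Tendsto (fun x : ℝ => (c + ε / 2) * x ^ (-(3 / 2) : ℝ)) (𝓝 1) (𝓝 ((c + ε / 2) * 1 ^ (-(3 / 2) : ℝ))) := by
    apply Tendsto.mul tendsto_const_nhds
    exact (Real.continuousAt_rpow_const 1 _ (Or.inl one_ne_zero)).tendsto
  have hlt : (c + ε / 2) * 1 ^ (-(3 / 2) : ℝ) < c + ε := by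
    rw [Real.one_rpow]; linarith
  have hev := hcont.eventually_lt_const hlt
  obtain ⟨δ, hδ, hδ'⟩ := Metric.eventually_nhds_iff.1 hev
  refine ⟨max (1 / 2) (1 - δ / 2), by positivity, ?_, ?_⟩
  · apply max_lt <;> linarith
  · intro η' hη'
    have hη1 : 1 / 2 ≤ η' := le_trans (le_max_left _ _) hη'
    have hηd : 1 - δ / 2 ≤ η' := le_trans (le_max_right _ _) hη'
    have key : (c + ε / 2) * η' ^ (-(3 / 2) : ℝ) ≤ c + ε := by
      rcases le_total η' 1 with h1 | h1
      · apply le_of_lt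
        apply hδ'
        rw [Real.dist_eq, abs_sub_comm, abs_of_nonneg (by linarith)]
        linarith
      · have : η' ^ (-(3 / 2) : ℝ) ≤ 1 := Real.rpow_le_one_of_one_le_of_nonpos h1 (by norm_num)
        have h0 : 0 ≤ η' ^ (-(3 / 2) : ℝ) := Real.rpow_nonneg (by linarith) _
        nlinarith
    obtain ⟨M0, hM0⟩ := eventually_atTop.1 (h.2 (ε / 2) (by linarith))
    filter_upwards [eventually_ge_atTop (2 * M0 + 1)] with M hM m hm
    have hMpos : (1 : ℝ) ≤ M := by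
      have : 1 ≤ M := by omega
      exact_mod_cast this
    have hMr : (2 * M0 + 1 : ℝ) ≤ M := by exact_mod_cast hM
    have hm0 : M0 ≤ m := by
      have : (M0 : ℝ) ≤ m := by nlinarith
      exact_mod_cast this
    have hηM : 0 < η' * M := by nlinarith
    calc tl a m ≤ (c + ε / 2) * (m : ℝ) ^ (-(3 / 2) : ℝ) := hM0 m hm0
      _ ≤ (c + ε / 2) * (η' * M) ^ (-(3 / 2) : ℝ) := by
          apply mul_le_mul_of_nonneg_left _ (by linarith)
          exact Real.rpow_le_rpow_of_nonpos hηM hm (by norm_num)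
      _ = ((c + ε / 2) * η' ^ (-(3 / 2) : ℝ)) * (M : ℝ) ^ (-(3 / 2) : ℝ) := by
          rw [Real.mul_rpow (by linarith) (by linarith)]; ring
      _ ≤ (c + ε) * (M : ℝ) ^ (-(3 / 2) : ℝ) := by
          apply mul_le_mul_of_nonneg_right key
          exact Real.rpow_nonneg (by linarith) _

theorem NS_add {a b : PowerSeries ℝ} (ha : NS a) (hb : NS b) : NS (a + b) := by
  refine ⟨fun n => ?_, ?_⟩
  · rw [map_add]; exact add_nonneg (ha.1 n) (hb.1 n)
  · simpa [map_add] using ha.2.add hb.2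

theorem tl_add {a b : PowerSeries ℝ} (ha : NS a) (hb : NS b) (M : ℕ) :
    tl (a + b) M = tl a M + tl b M := by
  unfold tl
  rw [← (summable_shift ha.2 M).tsum_add (summable_shift hb.2 M)]
  simp

theorem NS_C_mul {a : PowerSeries ℝ} (ha : NS a) {x : ℝ} (hx : 0 ≤ x) : NS (C x * a) := by
  refine ⟨fun n => ?_, ?_⟩
  · rw [coeff_C_mul]; exact mul_nonneg hx (ha.1 n)
  · simpa [coeff_C_mul] using ha.2.mul_left x

theorem tl_C_mul (a : PowerSeries ℝ) (x : ℝ) (M : ℕ) : tl (C x * a) M = x * tl a M := by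
  unfold tl
  rw [← tsum_mul_left]
  simp

theorem tl_mono {a b : PowerSeries ℝ} (ha : NS a) (hb : NS b) (h : ∀ n, coeff n a ≤ coeff n b)
    (M : ℕ) : tl a M ≤ tl b M :=
  (summable_shift ha.2 M).tsum_le_tsum (fun n => h _) (summable_shift hb.2 M)

theorem NS_of_le {a b : PowerSeries ℝ} (h0 : ∀ n, 0 ≤ coeff n a) (h : ∀ n, coeff n a ≤ coeff n b)
    (hb : NS b) : NS a := ⟨h0, Summable.of_nonneg_of_le h0 h hb.2⟩

theorem NS_zero : NS (0 : PowerSeries ℝ) := ⟨fun _ => by simp, by simp⟩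

theorem TL_zero : TL (0 : PowerSeries ℝ) 0 := by
  refine ⟨NS_zero, fun ε hε => Eventually.of_forall fun M => ?_⟩
  have : tl (0 : PowerSeries ℝ) M = 0 := by simp [tl]
  rw [this]
  have := Real.rpow_nonneg (Nat.cast_nonneg (α := ℝ) M) (-(3 / 2) : ℝ)
  nlinarith

theorem NS_one : NS (1 : PowerSeries ℝ) := by
  refine ⟨fun n => ?_, ?_⟩
  · rw [coeff_one]; split_ifs <;> norm_num
  · apply summable_of_ne_finset_zero (s := {0})
    intro n hn
    rw [coeff_one, if_neg (by simpa using hn)]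

theorem tot_one : tot (1 : PowerSeries ℝ) = 1 := by
  unfold tot
  rw [tsum_eq_single 0]
  · simp
  · intro n hn
    rw [coeff_one, if_neg hn]

theorem TL_one : TL (1 : PowerSeries ℝ) 0 := by
  refine ⟨NS_one, fun ε hε => ?_⟩
  filter_upwards [eventually_ge_atTop 1] with M hM
  have : tl (1 : PowerSeries ℝ) M = 0 := by
    unfold tl
    have : ∀ n, coeff (n + M) (1 : PowerSeries ℝ) = 0 := by
      intro n
      rw [coeff_one, if_neg (by omega)]
    simp [this]
  rw [this]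
  have := Real.rpow_nonneg (Nat.cast_nonneg (α := ℝ) M) (-(3 / 2) : ℝ)
  nlinarith

theorem TL_add {a b : PowerSeries ℝ} {c d : ℝ} (ha : TL a c) (hb : TL b d) : TL (a + b) (c + d) := by
  refine ⟨NS_add ha.1 hb.1, fun ε hε => ?_⟩
  filter_upwards [ha.2 (ε / 2) (by linarith), hb.2 (ε / 2) (by linarith)] with M h1 h2
  rw [tl_add ha.1 hb.1]
  linarith

theorem TL_C_mul {a : PowerSeries ℝ} {c x : ℝ} (hx : 0 ≤ x) (ha : TL a c) : TL (C x * a) (x * c) := by
  refine ⟨NS_C_mul ha.1 hx, fun ε hε => ?_⟩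
  filter_upwards [ha.2 (ε / (x + 1)) (by positivity)] with M h1
  rw [tl_C_mul]
  have h2 := Real.rpow_nonneg (Nat.cast_nonneg (α := ℝ) M) (-(3 / 2) : ℝ)
  have h3 : x * (c + ε / (x + 1)) ≤ x * c + ε := by
    have : x * (ε / (x + 1)) ≤ ε := by
      rw [← mul_div_assoc, div_le_iff₀ (by linarith)]
      nlinarith
    linarith
  calc x * tl a M ≤ x * ((c + ε / (x + 1)) * (M : ℝ) ^ (-(3 / 2) : ℝ)) :=
        mul_le_mul_of_nonneg_left h1 hx
    _ = (x * (c + ε / (x + 1))) * (M : ℝ) ^ (-(3 / 2) : ℝ) := by ring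
    _ ≤ _ := mul_le_mul_of_nonneg_right h3 h2

theorem TL_X_mul {a : PowerSeries ℝ} {c : ℝ} (ha : TL a c) : TL (X * a) c := by
  have hsh : ∀ n, coeff (n + 1) (X * a) = coeff n a := fun n => coeff_succ_X_mul n a
  have h0 : coeff 0 (X * a) = 0 := coeff_zero_X_mul a
  have hNS : NS (X * a) := by
    refine ⟨fun n => ?_, ?_⟩
    · cases n with
      | zero => rw [h0]
      | succ n => rw [hsh]; exact ha.1.1 n
    · rw [← summable_nat_add_iff 1]
      simpa [hsh] using ha.1.2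
  refine ⟨hNS, fun ε hε => ?_⟩
  obtain ⟨η, hη0, hη1, hη⟩ := tl_dil ha hε
  have h1 := hη η le_rfl
  have h2 : ∀ᶠ M : ℕ in atTop, η * M ≤ ((M - 1 : ℕ) : ℝ) := by
    filter_upwards [eventually_ge_atTop (⌈1 / (1 - η)⌉₊ + 1)] with M hM
    have hM1 : (1 : ℕ) ≤ M := by omega
    have h3 : 1 / (1 - η) ≤ (M : ℝ) := by
      have : (⌈1 / (1 - η)⌉₊ : ℝ) ≤ M := by
        have : ⌈1 / (1 - η)⌉₊ ≤ M := by omega
        exact_mod_cast this
      exact le_trans (Nat.le_ceil _) this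
    rw [Nat.cast_sub hM1, Nat.cast_one]
    rw [div_le_iff₀ (by linarith)] at h3
    linarith
  filter_upwards [h1, h2, eventually_ge_atTop 1] with M h1 h2 hM
  have h4 : tl (X * a) M = tl a (M - 1) := by
    obtain ⟨k, rfl⟩ : ∃ k, M = k + 1 := ⟨M - 1, by omega⟩
    unfold tl
    simp only [Nat.add_sub_cancel]
    apply tsum_congr
    intro n
    rw [← add_assoc, hsh]
  rw [h4]
  exact h1 _ h2

theorem TL_of_le {a b : PowerSeries ℝ} {c : ℝ} (h0 : ∀ n, 0 ≤ coeff n a)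
    (h : ∀ n, coeff n a ≤ coeff n b) (hb : TL b c) : TL a c := by
  have hNS := NS_of_le h0 h hb.1
  refine ⟨hNS, fun ε hε => ?_⟩
  filter_upwards [hb.2 ε hε] with M h1
  exact le_trans (tl_mono hNS hb.1 h M) h1

theorem TL_mono {a : PowerSeries ℝ} {c c' : ℝ} (ha : TL a c) (h : c ≤ c') : TL a c' := by
  refine ⟨ha.1, fun ε hε => ?_⟩
  filter_upwards [ha.2 ε hε] with M h1
  refine le_trans h1 (mul_le_mul_of_nonneg_right (by linarith) ?_)
  exact Real.rpow_nonneg (Nat.cast_nonneg (α := ℝ) M) (-(3 / 2) : ℝ)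

theorem TL_tau {a : PowerSeries ℝ} {c : ℝ} (hc : 0 ≤ c) (ha : TL a c) :
    TL a (tau a) ∧ 0 ≤ tau a ∧ tau a ≤ c := by
  have hmem : c ∈ {c | 0 ≤ c ∧ TL a c} := ⟨hc, ha⟩
  have hbdd : BddBelow {c | 0 ≤ c ∧ TL a c} := ⟨0, fun x hx => hx.1⟩
  refine ⟨⟨ha.1, fun ε hε => ?_⟩, ?_, csInf_le hbdd hmem⟩
  · obtain ⟨c', hc', hlt⟩ := exists_lt_of_csInf_lt ⟨c, hmem⟩ (show sInf {c | 0 ≤ c ∧ TL a c} < tau a + ε / 2 by
      unfold tau; linarith)
    filter_upwards [hc'.2.2 (ε / 2) (by linarith)] with M h1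
    refine le_trans h1 (mul_le_mul_of_nonneg_right (by linarith) ?_)
    exact Real.rpow_nonneg (Nat.cast_nonneg (α := ℝ) M) (-(3 / 2) : ℝ)
  · exact le_csInf ⟨c, hmem⟩ fun x hx => hx.1

end H32

open H32 in
/-- Row C11 -/
theorem st_C11 : ST_C11 :=
  ⟨fun _ _ _ _ => TL_add, fun _ _ _ => TL_C_mul, fun _ _ => TL_X_mul, fun _ _ _ => TL_of_le,
    fun _ _ _ => TL_mono, fun _ _ => TL_tau, TL_zero, TL_one⟩

namespace H32

/-! ### products -/

theorem NS_mul {a b : PowerSeries ℝ} (ha : NS a) (hb : NS b) :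
    NS (a * b) ∧ tot (a * b) = tot a * tot b := by
  have ha' : Summable (fun n => ‖coeff n a‖) := ha.2.norm
  have hb' : Summable (fun n => ‖coeff n b‖) := hb.2.norm
  have h1 := summable_norm_sum_mul_antidiagonal_of_summable_norm ha' hb'
  have h2 := tsum_mul_tsum_eq_tsum_sum_antidiagonal_of_summable_norm ha' hb'
  refine ⟨⟨fun n => ?_, ?_⟩, ?_⟩
  · rw [coeff_mul]
    exact Finset.sum_nonneg fun p _ => mul_nonneg (ha.1 _) (hb.1 _)
  · have := h1.of_norm
    simpa [coeff_mul] using this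
  · unfold tot
    rw [h2]
    simp [coeff_mul]

/-- the part with indices `≥ m` -/
def up (a : PowerSeries ℝ) (m : ℕ) : PowerSeries ℝ :=
  PowerSeries.mk fun n => if m ≤ n then coeff n a else 0

theorem coeff_up (a : PowerSeries ℝ) (m n : ℕ) :
    coeff n (up a m) = if m ≤ n then coeff n a else 0 := by
  rw [up, coeff_mk]

theorem NS_up {a : PowerSeries ℝ} (ha : NS a) (m : ℕ) : NS (up a m) := by
  apply NS_of_le _ _ ha
  · intro n; rw [coeff_up]; split_ifs
    · exact ha.1 n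
    · exact le_rfl
  · intro n; rw [coeff_up]; split_ifs
    · exact le_rfl
    · exact ha.1 n

theorem tot_up {a : PowerSeries ℝ} (ha : NS a) (m : ℕ) : tot (up a m) = tl a m := by
  unfold tot tl
  rw [← (NS_up ha m).2.sum_add_tsum_nat_add m]
  have h1 : ∑ i ∈ Finset.range m, coeff i (up a m) = 0 := by
    apply Finset.sum_eq_zero
    intro i hi
    rw [coeff_up, if_neg (by have := Finset.mem_range.1 hi; omega)]
  rw [h1, zero_add]
  apply tsum_congr
  intro n
  rw [coeff_up, if_pos (by omega)]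

theorem tl_mul_le {a b : PowerSeries ℝ} (ha : NS a) (hb : NS b) {M m : ℕ} :
    tl (a * b) M ≤ tl a m * tot b + tot a * tl b m + tl a (M - m) * tl b (M - m) := by
  have hab := (NS_mul ha hb).1
  have h1 := NS_mul (NS_up ha m) hb
  have h2 := NS_mul ha (NS_up hb m)
  have h3 := NS_mul (NS_up ha (M - m)) (NS_up hb (M - m))
  have hs := NS_add (NS_add h1.1 h2.1) h3.1
  have hcoef : ∀ n, coeff n (up (a * b) M) ≤
      coeff n (up a m * b + a * up b m + up a (M - m) * up b (M - m)) := by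
    intro n
    rw [coeff_up]
    split_ifs with hn
    · rw [map_add, map_add, coeff_mul, coeff_mul, coeff_mul, coeff_mul, ← Finset.sum_add_distrib,
        ← Finset.sum_add_distrib]
      apply Finset.sum_le_sum
      intro p hp
      rw [Finset.HasAntidiagonal.mem_antidiagonal] at hp
      simp only [coeff_up]
      have ha1 := ha.1 p.1
      have hb1 := hb.1 p.2
      have hab1 := mul_nonneg ha1 hb1
      by_cases hp1 : m ≤ p.1
      · rw [if_pos hp1]
        have : 0 ≤ coeff p.1 a * (if m ≤ p.2 then coeff p.2 b else 0) := by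
          split_ifs
          · exact hab1
          · simp
        have : 0 ≤ (if M - m ≤ p.1 then coeff p.1 a else 0) * (if M - m ≤ p.2 then coeff p.2 b else 0) := by
          split_ifs <;> simp [hab1]
        linarith
      · by_cases hp2 : m ≤ p.2
        · rw [if_neg hp1, if_pos hp2]
          have : 0 ≤ (if M - m ≤ p.1 then coeff p.1 a else 0) * (if M - m ≤ p.2 then coeff p.2 b else 0) := by
            split_ifs <;> simp [hab1]
          linarith
        · rw [if_neg hp1, if_neg hp2, if_pos (show M - m ≤ p.1 by omega),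
            if_pos (show M - m ≤ p.2 by omega)]
          linarith
    · exact hs.1 n
  have h4 : tl (a * b) M ≤ tot (up a m * b + a * up b m + up a (M - m) * up b (M - m)) := by
    rw [← tot_up hab]
    exact (NS_up hab M).2.tsum_le_tsum hcoef hs.2
  refine le_trans h4 (le_of_eq ?_)
  have e1 : ∀ {x y : PowerSeries ℝ}, NS x → NS y → tot (x + y) = tot x + tot y := by
    intro x y hx hy
    unfold tot
    rw [← hx.2.tsum_add hy.2]
    simp
  rw [e1 (NS_add h1.1 h2.1) h3.1, e1 h1.1 h2.1, h1.2, h2.2, h3.2, tot_up ha, tot_up hb, tot_up ha,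
    tot_up hb]

theorem tl_tendsto {a : PowerSeries ℝ} (_ha : NS a) : Tendsto (tl a) atTop (𝓝 0) :=
  tendsto_sum_nat_add fun n => coeff n a

theorem TL_mul {a b : PowerSeries ℝ} {c d : ℝ} (hc : 0 ≤ c) (hd : 0 ≤ d) (ha : TL a c) (hb : TL b d) :
    TL (a * b) (c * tot b + tot a * d) := by
  refine ⟨(NS_mul ha.1 hb.1).1, fun ε hε => ?_⟩
  have hA : 0 ≤ tot a := tot_nonneg ha.1.1
  have hB : 0 ≤ tot b := tot_nonneg hb.1.1
  set A := tot a with hAdef
  set B := tot b with hBdef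
  set ε1 := ε / (2 * (A + B + 1)) with hε1
  have hε1p : 0 < ε1 := by positivity
  have hε1e : ε1 * (A + B) ≤ ε / 2 := by
    rw [hε1, div_mul_eq_mul_div, div_le_div_iff₀ (by positivity) (by norm_num)]
    nlinarith
  obtain ⟨ηa, hηa0, hηa1, hηa⟩ := tl_dil ha hε1p
  obtain ⟨ηb, hηb0, hηb1, hηb⟩ := tl_dil hb hε1p
  set η := max ηa ηb with hη
  have hη1 : η < 1 := max_lt hηa1 hηb1
  have hη0 : 0 < η := lt_of_lt_of_le hηa0 (le_max_left _ _)
  -- the constant
  obtain ⟨N0, hN0⟩ := eventually_atTop.1 (hb.2 1 one_pos)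
  set Kb := (d + 1) * ((1 - η) / 2) ^ (-(3 / 2) : ℝ) with hKb
  have hKb0 : 0 ≤ Kb := by
    apply mul_nonneg (by linarith)
    exact Real.rpow_nonneg (by linarith) _
  set δ := ε / (2 * (Kb + 1)) with hδ
  have hδp : 0 < δ := by positivity
  have hδK : δ * Kb ≤ ε / 2 := by
    rw [hδ, div_mul_eq_mul_div, div_le_div_iff₀ (by positivity) (by norm_num)]
    nlinarith
  obtain ⟨N1, hN1⟩ := eventually_atTop.1 ((tl_tendsto ha.1).eventually_lt_const hδp)
  have hlarge : ∀ᶠ M : ℕ in atTop, (2 / (1 - η) * (N0 + N1 + 2) : ℝ) ≤ M :=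
    (tendsto_natCast_atTop_atTop (R := ℝ)).eventually_ge_atTop _
  filter_upwards [hηa η (le_max_left _ _), hηb η (le_max_right _ _), hlarge,
    eventually_ge_atTop 1] with M h1 h2 h3 hM1
  set m := ⌈η * M⌉₊ with hm
  have hMr : (1 : ℝ) ≤ M := by exact_mod_cast hM1
  have hm1 : η * M ≤ m := Nat.le_ceil _
  have hm2 : (m : ℝ) < η * M + 1 := Nat.ceil_lt_add_one (by positivity)
  have h3' : 2 * (N0 + N1 + 2 : ℝ) ≤ M * (1 - η) := by
    rw [div_mul_eq_mul_div, div_le_iff₀ (by linarith)] at h3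
    exact h3
  have hmM : m ≤ M := by
    have hN0' : (0 : ℝ) ≤ N0 := Nat.cast_nonneg _
    have hN1' : (0 : ℝ) ≤ N1 := Nat.cast_nonneg _
    have : (m : ℝ) ≤ M := by linarith
    exact_mod_cast this
  have hMm : ((M - m : ℕ) : ℝ) = M - m := Nat.cast_sub hmM
  have hMm' : (1 - η) / 2 * M ≤ ((M - m : ℕ) : ℝ) := by
    rw [hMm]
    have hN0' : (0 : ℝ) ≤ N0 := Nat.cast_nonneg _
    have hN1' : (0 : ℝ) ≤ N1 := Nat.cast_nonneg _
    linarith
  have hMN : (N0 + N1 : ℝ) ≤ ((M - m : ℕ) : ℝ) := by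
    refine le_trans ?_ hMm'
    linarith
  have hMN0 : N0 ≤ M - m := by
    have : (N0 : ℝ) ≤ ((M - m : ℕ) : ℝ) := le_trans (by have := Nat.cast_nonneg (α := ℝ) N1; linarith) hMN
    exact_mod_cast this
  have hMN1 : N1 ≤ M - m := by
    have : (N1 : ℝ) ≤ ((M - m : ℕ) : ℝ) := le_trans (by have := Nat.cast_nonneg (α := ℝ) N0; linarith) hMN
    exact_mod_cast this
  have hR : 0 ≤ (M : ℝ) ^ (-(3 / 2) : ℝ) := Real.rpow_nonneg (by linarith) _
  have h5 : tl b (M - m) ≤ Kb * (M : ℝ) ^ (-(3 / 2) : ℝ) := by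
    calc tl b (M - m) ≤ (d + 1) * ((M - m : ℕ) : ℝ) ^ (-(3 / 2) : ℝ) := hN0 _ hMN0
      _ ≤ (d + 1) * ((1 - η) / 2 * M) ^ (-(3 / 2) : ℝ) := by
          apply mul_le_mul_of_nonneg_left _ (by linarith)
          apply Real.rpow_le_rpow_of_nonpos _ hMm' (by norm_num)
          apply mul_pos <;> linarith
      _ = Kb * (M : ℝ) ^ (-(3 / 2) : ℝ) := by
          rw [Real.mul_rpow (by linarith) (by linarith), hKb]; ring
  have h6 : tl a (M - m) ≤ δ := (hN1 _ hMN1).le
  have h7 : tl a (M - m) * tl b (M - m) ≤ δ * (Kb * (M : ℝ) ^ (-(3 / 2) : ℝ)) :=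
    mul_le_mul h6 h5 (tl_nonneg hb.1.1 _) hδp.le
  have h8 := tl_mul_le ha.1 hb.1 (M := M) (m := m)
  have h9 := h1 m hm1
  have h10 := h2 m hm1
  calc tl (a * b) M ≤ tl a m * B + A * tl b m + tl a (M - m) * tl b (M - m) := h8
    _ ≤ ((c + ε1) * (M : ℝ) ^ (-(3 / 2) : ℝ)) * B + A * ((d + ε1) * (M : ℝ) ^ (-(3 / 2) : ℝ)) +
        δ * (Kb * (M : ℝ) ^ (-(3 / 2) : ℝ)) := by
          have := mul_le_mul_of_nonneg_right h9 hB
          have := mul_le_mul_of_nonneg_left h10 hA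
          linarith
    _ = (c * B + A * d + (ε1 * (A + B) + δ * Kb)) * (M : ℝ) ^ (-(3 / 2) : ℝ) := by ring
    _ ≤ (c * B + A * d + ε) * (M : ℝ) ^ (-(3 / 2) : ℝ) := by
          apply mul_le_mul_of_nonneg_right _ hR
          linarith

end H32

open H32 in
/-- Row C12 -/
theorem st_C12 : ST_C12 :=
  ⟨fun _ _ => NS_mul, fun _ _ _ _ => TL_mul⟩

namespace H32

theorem TL_prod (s : Finset ℤ) (a : ℤ → PowerSeries ℝ) (c A : ℤ → ℝ) :
    (∀ i ∈ s, 0 ≤ c i) → (∀ i ∈ s, TL (a i) (c i)) → (∀ i ∈ s, tot (a i) ≤ A i) →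
    TL (∏ i ∈ s, a i) (∑ i ∈ s, c i * ∏ j ∈ s.erase i, A j) ∧
    tot (∏ i ∈ s, a i) ≤ ∏ i ∈ s, A i := by
  classical
  induction s using Finset.induction_on with
  | empty =>
    intro _ _ _
    refine ⟨?_, ?_⟩
    · simpa using TL_one
    · simp [tot_one]
  | insert i0 s hi ih =>
    intro hc ha hA
    obtain ⟨h1, h2⟩ := ih (fun i h => hc i (Finset.mem_insert_of_mem h))
      (fun i h => ha i (Finset.mem_insert_of_mem h)) (fun i h => hA i (Finset.mem_insert_of_mem h))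
    have hc0 := hc i0 (Finset.mem_insert_self _ _)
    have ha0 := ha i0 (Finset.mem_insert_self _ _)
    have hA0 := hA i0 (Finset.mem_insert_self _ _)
    have hApos : ∀ i ∈ s, 0 ≤ A i := fun i h =>
      le_trans (tot_nonneg (ha i (Finset.mem_insert_of_mem h)).1.1) (hA i (Finset.mem_insert_of_mem h))
    have hA0' : 0 ≤ A i0 := le_trans (tot_nonneg ha0.1.1) hA0
    rw [Finset.prod_insert hi, Finset.prod_insert hi]
    have hsum0 : 0 ≤ ∑ i ∈ s, c i * ∏ j ∈ s.erase i, A j := TL_nonneg h1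
    refine ⟨TL_mono (TL_mul hc0 hsum0 ha0 h1) ?_, ?_⟩
    · rw [Finset.sum_insert hi, Finset.erase_insert hi]
      have e1 : ∑ i ∈ s, c i * ∏ j ∈ (insert i0 s).erase i, A j =
          A i0 * ∑ i ∈ s, c i * ∏ j ∈ s.erase i, A j := by
        rw [Finset.mul_sum]
        apply Finset.sum_congr rfl
        intro i his
        have hne : i0 ≠ i := fun h => hi (h ▸ his)
        rw [Finset.erase_insert_of_ne hne, Finset.prod_insert (fun h => hi (Finset.mem_of_mem_erase h))]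
        ring
      rw [e1]
      have := mul_le_mul_of_nonneg_left h2 hc0
      have := mul_le_mul_of_nonneg_right hA0 hsum0
      linarith
    · rw [(NS_mul ha0.1 h1.1).2]
      exact mul_le_mul hA0 h2 (tot_nonneg h1.1.1) hA0'

theorem TL_sum {ι : Type*} (s : Finset ι) (a : ι → PowerSeries ℝ) (c : ι → ℝ)
    (h : ∀ i ∈ s, TL (a i) (c i)) : TL (∑ i ∈ s, a i) (∑ i ∈ s, c i) := by
  classical
  induction s using Finset.induction_on with
  | empty => simpa using TL_zero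
  | insert i0 s hi ih =>
    rw [Finset.sum_insert hi, Finset.sum_insert hi]
    exact TL_add (h i0 (Finset.mem_insert_self _ _)) (ih fun i hi' => h i (Finset.mem_insert_of_mem hi'))

end H32

open H32 in
/-- Row C13 -/
theorem st_C13 : ST_C13 := by
  refine ⟨fun s a c A => ?_, fun S a c hS h => ?_⟩
  · intro h1 h2 h3
    have := TL_prod s a c A h1 h2 h3
    convert this
  · rw [finsum_mem_eq_finite_toFinset_sum _ hS, finsum_mem_eq_finite_toFinset_sum _ hS]
    exact TL_sum _ _ _ fun b hb => h b (by simpa using hb)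

end

end QR
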