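import Pool.Agent.Helper98.QR.Defs

/-!
# Independent random half-planes: σ-algebra and the final statement
-/

namespace QR

open MeasureTheory

/-- The σ-algebra on boundary graphs generated by the numbers of edges and the boundary path. -/
instance BGraph.instMeasurableSpace : MeasurableSpace (BGraph ℕ) :=
  MeasurableSpace.comap (fun G => (G.c, G.b)) inferInstance

/-- Main theorem: the glueing of two independent simple boundary uniform infinite half-planar
quadrangulations is recurrent. -/
def ST_QR2 : Prop :=
  ∀ (Ω : Type) [MeasurableSpace Ω] (P : Measure Ω) [IsProbabilityMeasure P]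
    (H H' : Ω → BGraph ℕ), IsUIHPQ P H → IsUIHPQ P H' → ProbabilityTheory.IndepFun H H' P →
    ∀ᵐ ω ∂P, SPR.Recurrent (glueC (H ω) (H' ω)) (Sum.inl ((H ω).b 0))

end QR
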