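import Pool.Agent.Helper18.QR.E03
import Pool.Agent.Helper32.QR.QR2Defs

/-!
# From two independent copies on a product space to independent random half-planes
-/

namespace QR

noncomputable section

open Filter Topology MeasureTheory

namespace H32

theorem meas_c (x y : ℕ) : Measurable (fun G : BGraph ℕ => G.c x y) := by
  have h1 : Measurable (fun G : BGraph ℕ => (G.c, G.b)) := comap_measurable _
  exact (measurable_pi_apply y).comp ((measurable_pi_apply x).comp (measurable_fst.comp h1))

theorem meas_b (i : ℤ) : Measurable (fun G : BGraph ℕ => G.b i) := by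
  have h1 : Measurable (fun G : BGraph ℕ => (G.c, G.b)) := comap_measurable _
  exact (measurable_pi_apply i).comp (measurable_snd.comp h1)

theorem meas_of {Ω : Type} [MeasurableSpace Ω] (H : Ω → BGraph ℕ)
    (hc : ∀ x y, Measurable (fun ω => (H ω).c x y)) (hb : ∀ i, Measurable (fun ω => (H ω).b i)) :
    Measurable H := by
  apply measurable_comap_iff.2
  apply Measurable.prodMk
  · exact measurable_pi_iff.2 fun x => measurable_pi_iff.2 fun y => hc x y
  · exact measurable_pi_iff.2 fun i => hb i

/-- symmetric and locally finite graphs -/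
def NS (G : BGraph ℕ) : Prop :=
  (∀ x y, G.c x y = G.c y x) ∧ ∀ x, (Function.support (G.c x)).Finite

theorem fin_iff (f : ℕ → ℕ) : (Function.support f).Finite ↔ ∃ N, ∀ y, N ≤ y → f y = 0 := by
  constructor
  · intro h
    obtain ⟨N, hN⟩ := h.bddAbove
    refine ⟨N + 1, fun y hy => ?_⟩
    by_contra hne
    have := hN (show y ∈ Function.support f from hne)
    omega
  · rintro ⟨N, hN⟩
    apply (Set.finite_lt_nat N).subset
    intro y hy
    by_contra hne
    exact hy (hN y (not_lt.1 hne))

theorem meas_NS : MeasurableSet {G : BGraph ℕ | NS G} := by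
  have h1 : {G : BGraph ℕ | NS G} = (⋂ x, ⋂ y, {G : BGraph ℕ | G.c x y = G.c y x}) ∩
      ⋂ x, ⋃ N : ℕ, ⋂ y, {G : BGraph ℕ | N ≤ y → G.c x y = 0} := by
    ext G
    simp only [Set.mem_ofPred_eq, NS, Set.mem_inter_iff, Set.mem_iInter, Set.mem_iUnion, fin_iff]
  rw [h1]
  refine MeasurableSet.inter ?_ ?_
  · exact MeasurableSet.iInter fun x => MeasurableSet.iInter fun y =>
      measurableSet_eq_fun (meas_c x y) (meas_c y x)
  · refine MeasurableSet.iInter fun x => MeasurableSet.iUnion fun N => MeasurableSet.iInter fun y => ?_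
    by_cases h : N ≤ y
    · simp only [h, true_implies]
      exact measurableSet_eq_fun (meas_c x y) measurable_const
    · simp only [h, false_implies, Set.ofPred_true, MeasurableSet.univ]

/-- the trivial graph -/
def G0 : BGraph ℕ := ⟨fun _ _ => 0, fun _ => 0⟩

open Classical in
/-- regularisation -/
def reg (G : BGraph ℕ) : BGraph ℕ := if NS G then G else G0

theorem meas_reg : Measurable reg := by
  unfold reg
  exact Measurable.ite meas_NS measurable_id measurable_const

theorem reg_of {G : BGraph ℕ} (h : NS G) : reg G = G := by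
  unfold reg
  rw [if_pos h]

theorem NS_reg (G : BGraph ℕ) : NS (reg G) := by
  unfold reg
  split_ifs with h
  · exact h
  · refine ⟨fun _ _ => rfl, fun x => ?_⟩
    have : Function.support (G0.c x) = ∅ := by
      ext y
      simp [G0]
    rw [this]
    exact Set.finite_empty

theorem NS_of {Ω : Type} [MeasurableSpace Ω] {P : Measure Ω} {H : Ω → BGraph ℕ} (h : IsUIHPQ P H)
    (ω : Ω) : NS (H ω) := ⟨fun x y => h.symm ω x y, fun x => h.locfin ω x⟩

theorem meas_BIso {Ω : Type} [MeasurableSpace Ω] (H : Ω → BGraph ℕ)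
    (hc : ∀ x y, Measurable (fun ω => (H ω).c x y)) (hb : ∀ i, Measurable (fun ω => (H ω).b i))
    (r K : ℕ) (F : BGraph (Fin K)) : MeasurableSet {ω | BIso r (H ω) F} := by
  have h : {ω | BIso r (H ω) F} = {ω | ∃ g : Fin K → ℕ, Q03 r (H ω) F g} := by
    ext ω
    exact q03_iff r (H ω) F
  rw [h, measurableSet_setOfPred]
  exact Measurable.exists fun g => e03_q H hc hb r F g

open Classical in
/-- the mixture of the two laws -/
theorem mix {Ω : Type} [MeasurableSpace Ω] (P : Measure Ω) [IsProbabilityMeasure P]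
    (H H' : Ω → BGraph ℕ) (hH : IsUIHPQ P H) (hH' : IsUIHPQ P H') :
    IsUIHPQ ((2 : ENNReal)⁻¹ • P.map H + (2 : ENNReal)⁻¹ • P.map H') reg := by
  have mH : Measurable H := meas_of H hH.meas_c hH.meas_b
  have mH' : Measurable H' := meas_of H' hH'.meas_c hH'.meas_b
  have mc : ∀ x y, Measurable (fun G => (reg G).c x y) := fun x y => (meas_c x y).comp meas_reg
  have mb : ∀ i, Measurable (fun G => (reg G).b i) := fun i => (meas_b i).comp meas_reg
  refine ⟨mc, mb, fun G x y => (NS_reg G).1 x y, fun G x => (NS_reg G).2 x, ?_⟩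
  intro r K F
  obtain ⟨L, h1, h2⟩ := hH.lim r K F
  obtain ⟨L', h1', h2'⟩ := hH'.lim r K F
  refine ⟨L, h1, ?_⟩
  have hLL : ∀ p, 1 ≤ p → L p = L' p := fun p hp => tendsto_nhds_unique (h1 p hp) (h1' p hp)
  have h3 : (P {ω | BIso r (H ω) F}).toReal = (P {ω | BIso r (H' ω) F}).toReal := by
    refine tendsto_nhds_unique h2 (h2'.congr' ?_)
    filter_upwards [eventually_ge_atTop 1] with p hp
    exact (hLL p hp).symm
  have hS : MeasurableSet {G | BIso r (reg G) F} := meas_BIso reg mc mb r K F
  have e1 : P.map H {G | BIso r (reg G) F} = P {ω | BIso r (H ω) F} := by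
    rw [Measure.map_apply mH hS]
    congr 1
    ext ω
    simp only [Set.mem_preimage, Set.mem_ofPred_eq, reg_of (NS_of hH ω)]
  have e2 : P.map H' {G | BIso r (reg G) F} = P {ω | BIso r (H' ω) F} := by
    rw [Measure.map_apply mH' hS]
    congr 1
    ext ω
    simp only [Set.mem_preimage, Set.mem_ofPred_eq, reg_of (NS_of hH' ω)]
  have e3 : P {ω | BIso r (H ω) F} = P {ω | BIso r (H' ω) F} :=
    (ENNReal.toReal_eq_toReal_iff' (measure_ne_top _ _) (measure_ne_top _ _)).1 h3
  have e4 : ((2 : ENNReal)⁻¹ • P.map H + (2 : ENNReal)⁻¹ • P.map H') {G | BIso r (reg G) F} =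
      P {ω | BIso r (H ω) F} := by
    rw [Measure.add_apply, Measure.smul_apply, Measure.smul_apply, e1, e2, ← e3, smul_eq_mul,
      ← add_mul, ENNReal.inv_two_add_inv_two, one_mul]
  rw [e4]
  exact h2

end H32

open H32 in
/-- The product version implies the general version. -/
theorem st_QR2 (hQR : ST_QR) : ST_QR2 := by
  intro Ω _ P _ H H' hH hH' hind
  have mH : Measurable H := meas_of H hH.meas_c hH.meas_b
  have mH' : Measurable H' := meas_of H' hH'.meas_c hH'.meas_b
  have p1 : IsProbabilityMeasure (P.map H) := Measure.isProbabilityMeasure_map mH.aemeasurable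
  have p2 : IsProbabilityMeasure (P.map H') := Measure.isProbabilityMeasure_map mH'.aemeasurable
  set ν : Measure (BGraph ℕ) := (2 : ENNReal)⁻¹ • P.map H + (2 : ENNReal)⁻¹ • P.map H' with hν
  have p3 : IsProbabilityMeasure ν := by
    refine ⟨?_⟩
    rw [hν, Measure.add_apply, Measure.smul_apply, Measure.smul_apply, measure_univ, measure_univ,
      smul_eq_mul, mul_one, ENNReal.inv_two_add_inv_two]
  have h1 := hQR (BGraph ℕ) ν reg (mix P H H' hH hH')
  have a1 : P.map H ≪ ν := by
    intro s hs
    rw [hν, Measure.add_apply, Measure.smul_apply, smul_eq_mul, add_eq_zero, mul_eq_zero] at hs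
    rcases hs.1 with h | h
    · simp at h
    · exact h
  have a2 : P.map H' ≪ ν := by
    intro s hs
    rw [hν, Measure.add_apply, Measure.smul_apply, Measure.smul_apply, smul_eq_mul, smul_eq_mul,
      add_eq_zero, mul_eq_zero, mul_eq_zero] at hs
    rcases hs.2 with h | h
    · simp at h
    · exact h
  have h2 : ∀ᵐ x ∂((P.map H).prod (P.map H')),
      SPR.Recurrent (glueC (reg x.1) (reg x.2)) (Sum.inl ((reg x.1).b 0)) :=
    (a1.prod a2).ae_le h1
  rw [← (ProbabilityTheory.indepFun_iff_map_prod_eq_prod_map_map mH.aemeasurable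
    mH'.aemeasurable).1 hind] at h2
  have h3 := ae_of_ae_map (mH.prodMk mH').aemeasurable h2
  filter_upwards [h3] with ω hω
  simpa only [reg_of (NS_of hH ω), reg_of (NS_of hH' ω)] using hω

end

end QR
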